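import Pool.Agent.Helper83.RK.Core
import Pool.Agent.Helper38.RK.Setup
import Pool.Agent.Helper34.RK.Null
import Pool.Agent.Helper93.RK.Energy

/-!
# Actions of powers of the `p`-adic integers with small averaged oscillation energy
-/

set_option autoImplicit false
set_option linter.unusedVariables false

open Set MeasureTheory Metric Filter Topology
open scoped NNReal ENNReal

namespace Pool.Agent.Helper83.RK

open Pool.Agent.Helper3.HS

variable {d m p : ℕ} [Fact p.Prime] [MeasurableSpace ℤ_[p]] [BorelSpace ℤ_[p]]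
  {ν : Measure (Gp (m + 1) p)} [IsProbabilityMeasure ν] [ν.IsAddHaarMeasure]

/-- The average of a continuous action is continuous. -/
theorem continuous_avgMap {n k : ℕ} {Γ : Gp k p → (Fin n → ℝ) → (Fin n → ℝ)}
    {μ : Measure (Gp k p)} [IsFiniteMeasure μ]
    (hΓ : Continuous (fun q : Gp k p × (Fin n → ℝ) => Γ q.1 q.2)) :
    Continuous fun x => ∫ a, Γ a x ∂μ := by
  have h1 : Continuous (Function.uncurry fun (x : Fin n → ℝ) (a : Gp k p) => Γ a x) :=
    hΓ.comp continuous_swap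
  have h2 := continuous_parametric_integral_of_continuous (μ := μ) h1
    (isCompact_univ : IsCompact (univ : Set (Gp k p)))
  simpa using h2

/-- The average is invariant. -/
theorem avgMap_inv {n k : ℕ} (P : PD n k p) {μ : Measure (Gp k p)} [μ.IsAddHaarMeasure]
    {Γ : Gp k p → (Fin n → ℝ) → (Fin n → ℝ)} (hΓP : ∀ a, ∀ x ∈ P.U, Γ a x = P.g a x)
    (b : Gp k p) {x : Fin n → ℝ} (hx : x ∈ P.U) :
    ∫ a, Γ a (P.g b x) ∂μ = ∫ a, Γ a x ∂μ := by
  have h1 : ∀ a, Γ a (P.g b x) = Γ (a + b) x := fun a => by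
    rw [hΓP a _ (P.hgU b x hx), hΓP _ _ hx, P.hgadd _ _ x hx]
  simp only [h1]
  exact integral_add_right_eq_self (fun a => Γ a x) b

/-- Let the metric space `X` be acted on by `(ℤ_p)^(m+1)` and let `W` be an open set of regular
points of dimension `d + 1`. If the energy with exponent `d + 1 + m` is small near every point of
`W`, then the elements of `p ^ k (ℤ_p)^(m+1)`, `k` large, which are not divisible by `p ^ (k+1)` do
not all act without fixed points on `W`. -/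
theorem main {X : Type*} [MetricSpace X] [MeasurableSpace X] [BorelSpace X]
    [AddAction (Gp (m + 1) p) X] [ContinuousVAdd (Gp (m + 1) p) X]
    {W : Set X} (hWo : IsOpen W) (hWn : W.Nonempty) (hW : W ⊆ regPts (d + 1) X)
    (hE : ∀ x ∈ W, ∃ V ∈ 𝓝 x, ∀ ε : ℝ≥0∞, 0 < ε → ∃ h : ℝ, 0 < h ∧ h ≤ 1 ∧ ∫⁻ a,
      ∫⁻ y in V, Metric.ediam ((fun z => a +ᵥ z) '' (ball y h ∩ V)) ^ (d + 1 + m)
        ∂(μH[((d + 1 : ℕ) : ℝ)] : Measure X) ∂ν ≤ ε * ENNReal.ofReal (h ^ d)) :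
    ∃ K : ℕ, ∀ k, K ≤ k → ∃ a : Gp (m + 1) p, Prim a ∧ ∃ x ∈ W,
      (((p : ℤ_[p]) ^ k • a : Gp (m + 1) p) +ᵥ x) = x := by
  by_contra hcon
  push Not at hcon
  obtain ⟨x₀, hx₀⟩ := hWn
  obtain ⟨e, C, he, hC, hC'⟩ := hW hx₀
  obtain ⟨σ₀, hσ₀, hGV⟩ := GV_small (hE x₀ hx₀) e he hC hC'
  obtain ⟨k, σ, P, Γ, hσ, hσσ, hσe, hPσ, hΓc, hΓ, hΓP, r, hr, hdeg⟩ :=
    exists_PD ν hWo hx₀ e he hcon hσ₀
  have hGVN := hGV σ hσ hσσ hσe k Γ (fun a u hu => (hΓ a u hu).2)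
  obtain ⟨Q, hQc, hQd⟩ := TopologicalSpace.exists_countable_dense ((Fin (d + 1) → ℝ) × ℝ)
  have hF : Continuous fun x => ∫ a, Γ a x ∂ν := continuous_avgMap hΓc
  obtain ⟨T, hT, hae⟩ := P.null_ae hσ hPσ hF hΓc hΓP (fun x => rfl) hGVN hQc
  obtain ⟨y, hy, hyN⟩ : ∃ y ∈ ball (e x₀) r, ∀ i, ∀ t ∈ T i, ∀ J : Fin m → Q,
      volume ((fun x => fun k => P.avg ν (J k) x) ''
        {x | x ∈ P.U ∧ (∫ a, Γ a x ∂ν) = y ∧ x i = t}) = 0 := by
    by_contra hno
    push Not at hno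
    have h1 : (volume : Measure (Fin (d + 1) → ℝ)) (ball (e x₀) r) = 0 := by
      rw [ae_iff] at hae
      refine measure_mono_null (fun y hy => ?_) hae
      intro h2
      obtain ⟨i, t, ht, J, hJ⟩ := hno y hy
      exact hJ (h2 i t ht J)
    exact (measure_ball_pos volume (e x₀) hr).ne' h1
  obtain ⟨hcl, hd1⟩ := hdeg y hy
  obtain ⟨z, hz⟩ := P.core hF (fun a x hx => avgMap_inv P hΓP a hx) hcl
    (fun (q : Q) => P.avg ν q) (fun q => P.avg_continuousOn _)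
    (fun q a x hx => P.avg_inv _ a x hx)
    (fun x hx η hη => by
      obtain ⟨q, hq, h1, h2⟩ := P.avg_small (ν := ν) hQd hx hη
      exact ⟨⟨q, hq⟩, h1, h2⟩) T hT hyN hd1
  have h1 : (1 : ℤ) = p * z := by exact_mod_cast hz
  have h2 : (p : ℤ) ∣ 1 := ⟨z, h1⟩
  exact (Nat.Prime.one_lt (Fact.out : p.Prime)).ne' (by exact_mod_cast Int.eq_one_of_dvd_one (by positivity) h2)

end Pool.Agent.Helper83.RK
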