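import Pool.Agent.Helper83.RK.Lam
import Pool.Agent.Helper43.Rank.Cover
import Pool.Agent.Helper9.RK.Thr

/-!
# The topological core of the rank theorem
-/

set_option autoImplicit false
set_option linter.unusedSectionVars false
set_option linter.unusedVariables false

open Set MeasureTheory Metric Filter Topology
open scoped NNReal ENNReal

namespace Pool.Agent.Helper83.RK

open Pool.Agent.Helper3.HS

/-- A bounded continuous function which vanishes exactly on a closed set. -/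
noncomputable def wt {V : Type*} [PseudoEMetricSpace V] (B : Set V) (x : V) : ℝ :=
  (min (Metric.infEDist x B) 1).toReal

section wt

variable {V : Type*} [PseudoEMetricSpace V] {B : Set V}

theorem wt_continuous : Continuous (wt B : V → ℝ) := by
  unfold wt
  have h1 : Continuous fun x : V => min (Metric.infEDist x B) 1 :=
    Metric.continuous_infEDist.min continuous_const
  exact ENNReal.continuousOn_toReal.comp_continuous h1 fun x =>
    (lt_of_le_of_lt (min_le_right _ _) ENNReal.one_lt_top).ne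

theorem wt_nonneg (x : V) : 0 ≤ wt B x := ENNReal.toReal_nonneg

theorem wt_pos (hB : IsClosed B) {x : V} : 0 < wt B x ↔ x ∉ B := by
  unfold wt
  have h1 : min (Metric.infEDist x B) 1 ≠ ⊤ :=
    (lt_of_le_of_lt (min_le_right _ _) ENNReal.one_lt_top).ne
  rw [ENNReal.toReal_pos_iff]
  constructor
  · rintro ⟨h2, -⟩ hx
    rw [Metric.infEDist_zero_of_mem hx] at h2
    simp at h2
  · intro hx
    refine ⟨lt_min ?_ one_pos, lt_top_iff_ne_top.2 h1⟩
    rw [pos_iff_ne_zero]
    intro h2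
    rw [← Metric.mem_closure_iff_infEDist_zero, hB.closure_eq] at h2
    exact hx h2

end wt

namespace PD

variable {n m p : ℕ} [Fact p.Prime] (P : PD n m p)

/-- The invariant weight of an invariant open set. -/
noncomputable def iwt (N : Set (Fin n → ℝ)) (x : Fin n → ℝ) : ℝ :=
  sInf ((fun a => wt Nᶜ (P.g a x)) '' univ)

variable {P}

theorem iwt_bdd (N : Set (Fin n → ℝ)) (x : Fin n → ℝ) :
    BddBelow ((fun a => wt Nᶜ (P.g a x)) '' univ) :=
  ⟨0, by rintro _ ⟨a, -, rfl⟩; exact wt_nonneg _⟩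

theorem iwt_continuousOn (N : Set (Fin n → ℝ)) : ContinuousOn (P.iwt N) P.U := by
  rw [continuousOn_iff_continuous_restrict]
  have h1 : Continuous (fun q : P.U × Gp m p => wt Nᶜ (P.g q.2 q.1.1)) := by
    apply wt_continuous.comp
    have h2 := continuousOn_iff_continuous_restrict.1 P.hgj
    have h3 : Continuous (fun q : P.U × Gp m p =>
        (⟨(q.2, q.1.1), ⟨mem_univ _, q.1.2⟩⟩ : (univ ×ˢ P.U : Set (Gp m p × (Fin n → ℝ))))) := by
      fun_prop
    exact h2.comp h3
  exact isCompact_univ.continuous_sInf (f := fun (x : P.U) (a : Gp m p) => wt Nᶜ (P.g a x.1)) h1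

theorem iwt_g (N : Set (Fin n → ℝ)) (b : Gp m p) {x : Fin n → ℝ} (hx : x ∈ P.U) :
    P.iwt N (P.g b x) = P.iwt N x := by
  unfold iwt
  congr 1
  ext r
  constructor
  · rintro ⟨a, -, rfl⟩
    exact ⟨a + b, mem_univ _, by simp only [P.hgadd a b x hx]⟩
  · rintro ⟨a, -, rfl⟩
    refine ⟨a - b, mem_univ _, ?_⟩
    simp only
    rw [← P.hgadd _ _ x hx, sub_add_cancel]

theorem iwt_pos {N : Set (Fin n → ℝ)} (hN : IsOpen N) (hNg : ∀ a, ∀ x ∈ N, P.g a x ∈ N)
    {x : Fin n → ℝ} (hx : x ∈ P.U) : 0 < P.iwt N x ↔ x ∈ N := by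
  constructor
  · intro h
    have h1 : P.iwt N x ≤ wt Nᶜ (P.g 0 x) := csInf_le (iwt_bdd N x) ⟨0, mem_univ _, rfl⟩
    rw [P.hg0 x hx] at h1
    have h2 := (wt_pos hN.isClosed_compl).1 (h.trans_le h1)
    simpa using h2
  · intro h
    have hc : Continuous fun a : Gp m p => wt Nᶜ (P.g a x) := by
      apply wt_continuous.comp
      have h2 : ContinuousOn (fun a : Gp m p => P.g a x) univ :=
        P.hgj.comp (f := fun a : Gp m p => (a, x)) (by fun_prop) (fun a _ => ⟨mem_univ _, hx⟩)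
      exact continuousOn_univ.1 h2
    have h1 : P.iwt N x ∈ (fun a => wt Nᶜ (P.g a x)) '' univ :=
      (isCompact_univ.image hc).sInf_mem (image_nonempty.2 univ_nonempty)
    obtain ⟨a, -, ha⟩ := h1
    rw [← ha]
    exact (wt_pos hN.isClosed_compl).2 (by simpa using hNg a x h)

variable (P)

/-- Generic constants: the walls between the cells are null. -/
theorem exists_theta {ι : Type*} [Fintype ι] (mu : ι → (Fin n → ℝ) → ℝ)
    (hc : ∀ i, ContinuousOn (mu i) P.U) (e : ι → ℝ) (he : Function.Injective e) {δ : ℝ}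
    (hδ : 0 < δ) : ∃ θ : ℝ, 0 < θ ∧ θ < δ ∧ ∀ i j, i ≠ j →
      (volume : Measure (Fin n → ℝ)) {x | x ∈ P.U ∧ mu i x + θ * e i = mu j x + θ * e j} = 0 := by
  classical
  -- the levels of positive measure
  let G : ι × ι → (Fin n → ℝ) → ℝ := fun q => P.U.piecewise (fun x => mu q.1 x - mu q.2 x) 0
  have hG : ∀ q, Measurable (G q) := fun q =>
    ContinuousOn.measurable_piecewise ((hc q.1).sub (hc q.2)) continuousOn_const
      P.hU.measurableSet
  let bad : Set ℝ := ⋃ q : ι × ι, (fun s => s / (e q.2 - e q.1)) ''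
    {s | 0 < (volume : Measure (Fin n → ℝ)) {x | G q x = s}}
  have hbad : bad.Countable := by
    apply countable_iUnion
    intro q
    exact (Measure.countable_meas_level_set_pos (hG q)).image _
  have h1 : ¬ (Ioo 0 δ ⊆ bad) := by
    intro h
    have h2 : (Ioo (0:ℝ) δ).Countable := hbad.mono h
    exact (Cardinal.Real.Ioo_countable_iff.1 h2).not_gt hδ
  obtain ⟨θ, hθ, hθb⟩ := not_subset.1 h1
  refine ⟨θ, hθ.1, hθ.2, fun i j hij => ?_⟩
  have h2 : ¬ 0 < (volume : Measure (Fin n → ℝ)) {x | G (i, j) x = θ * (e j - e i)} := by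
    intro h3
    apply hθb
    refine mem_iUnion.2 ⟨(i, j), θ * (e j - e i), h3, ?_⟩
    have h4 : e j - e i ≠ 0 := sub_ne_zero.2 fun h => hij (he h).symm
    simp only
    field_simp
  have h3 : (volume : Measure (Fin n → ℝ)) {x | G (i, j) x = θ * (e j - e i)} = 0 := by
    simpa using h2
  apply measure_mono_null _ h3
  rintro x ⟨hx, heq⟩
  simp only [mem_setOf_eq, G, piecewise_eq_of_mem _ _ _ hx]
  linarith

end PD

/-- The topological core. -/
theorem PD.core {n m p : ℕ} [Fact p.Prime] (P : PD n (m + 1) p)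
    {F : (Fin n → ℝ) → (Fin n → ℝ)} (hF : Continuous F) (hFg : ∀ a, ∀ x ∈ P.U, F (P.g a x) = F x)
    {y : Fin n → ℝ} (hy : ∀ x ∈ closure P.U, F x = y → x ∈ P.U)
    {κ : Type} (f : κ → (Fin n → ℝ) → ℝ) (hfc : ∀ j, ContinuousOn (f j) P.U)
    (hfg : ∀ j a, ∀ x ∈ P.U, f j (P.g a x) = f j x)
    (hfs : ∀ x ∈ P.U, ∀ η : ℝ, 0 < η → ∃ j, 0 < f j x ∧ ∀ z ∈ P.U, 0 < f j z →
      ∃ a, dist (P.g a z) x < η)
    (T : Fin n → Set ℝ) (hT : ∀ i, Dense (T i))
    (hN : ∀ i, ∀ t ∈ T i, ∀ J : Fin m → κ,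
      volume ((fun x => fun k => f (J k) x) '' {x | x ∈ P.U ∧ F x = y ∧ x i = t}) = 0)
    {d : ℝ} (hd : HasDeg (volume : Measure (Fin n → ℝ)) P.U F y d) : ∃ z : ℤ, d = p * z := by
  classical
  set Φ : Set (Fin n → ℝ) := {x | x ∈ P.U ∧ F x = y} with hΦdef
  have hΦU : Φ ⊆ P.U := fun x hx => hx.1
  have hΦc : IsCompact Φ := by
    have h1 : Φ = closure P.U ∩ F ⁻¹' {y} := by
      ext x
      exact ⟨fun h => ⟨subset_closure h.1, h.2⟩, fun h => ⟨hy x h.1 h.2, h.2⟩⟩
    rw [h1]
    exact P.hUb.isCompact_closure.inter_right (isClosed_singleton.preimage hF)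
  -- a compact neighbourhood and the displacement
  obtain ⟨L, hL, hΦL, hLU⟩ := exists_compact_between hΦc P.hU hΦU
  obtain ⟨r, hr, hdisp⟩ := P.exists_disp hL hLU
  obtain ⟨η₁, hη₁, hthick⟩ := hΦc.exists_thickening_subset_open isOpen_interior hΦL
  set η : ℝ := min η₁ (r / 2) with hηdef
  have hη : 0 < η := by positivity
  -- boxes and functions
  have hbox : ∀ x ∈ Φ, ∃ (a b : Fin n → ℝ) (j : κ), (∀ i, a i ∈ T i ∧ b i ∈ T i) ∧
      x ∈ Set.pi univ (fun i => Ioo (a i) (b i)) ∧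
      Set.pi univ (fun i => Ioo (a i) (b i)) ⊆ ball x η ∧ 0 < f j x ∧
      ∀ z ∈ P.U, 0 < f j z → ∃ c, P.g c z ∈ Set.pi univ (fun i => Ioo (a i) (b i)) := by
    intro x hx
    have ha : ∀ i, ∃ s ∈ T i, s ∈ Ioo (x i - η) (x i) := fun i =>
      (hT i).exists_between (by linarith)
    have hb : ∀ i, ∃ s ∈ T i, s ∈ Ioo (x i) (x i + η) := fun i =>
      (hT i).exists_between (by linarith)
    choose a haT ha using ha
    choose b hbT hb using hb
    have hxQ : x ∈ Set.pi univ (fun i => Ioo (a i) (b i)) := fun i _ => ⟨(ha i).2, (hb i).1⟩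
    have hQo : IsOpen (Set.pi univ (fun i => Ioo (a i) (b i))) :=
      isOpen_set_pi finite_univ fun i _ => isOpen_Ioo
    obtain ⟨η', hη', hball⟩ := Metric.isOpen_iff.1 hQo x hxQ
    obtain ⟨j, hj, hjs⟩ := hfs x hx.1 η' hη'
    refine ⟨a, b, j, fun i => ⟨haT i, hbT i⟩, hxQ, ?_, hj, fun z hz hz' => ?_⟩
    · intro z hz
      rw [mem_ball, dist_pi_lt_iff hη]
      intro i
      have h1 := hz i (mem_univ i)
      rw [Real.dist_eq, abs_lt]
      constructor
      · linarith [(ha i).1, h1.1]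
      · linarith [(hb i).2, h1.2]
    · obtain ⟨c, hc⟩ := hjs z hz hz'
      exact ⟨c, hball hc⟩
  choose a b j hab hxQ hQη hj hjs using hbox
  -- a finite subcover
  obtain ⟨t, ht⟩ := hΦc.elim_nhds_subcover' (fun x hx => {z | f (j x hx) x / 2 < f (j x hx) z} ∩
      Set.pi univ (fun i => Ioo (a x hx i) (b x hx i)))
    (fun x hx => inter_mem (((hfc (j x hx)).continuousAt
        (P.hU.mem_nhds (hΦU hx))).eventually_const_lt (by linarith [hj x hx]))
      ((isOpen_set_pi finite_univ fun i _ => isOpen_Ioo).mem_nhds (hxQ x hx)))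
  obtain ⟨c, hc, hct⟩ := exists_pos_le_finset t (fun x : Φ => f (j x.1 x.2) x.1 / 2)
    (fun x _ => by linarith [hj x.1 x.2])
  let ι : Type := {x : Φ // x ∈ t}
  let Q : ι → Set (Fin n → ℝ) := fun s =>
    Set.pi univ (fun i => Ioo (a s.1.1 s.1.2 i) (b s.1.1 s.1.2 i))
  let ff : ι → (Fin n → ℝ) → ℝ := fun s => f (j s.1.1 s.1.2)
  have hQo : ∀ s, IsOpen (Q s) := fun s => isOpen_set_pi finite_univ fun i _ => isOpen_Ioo
  have hQL : ∀ s, Q s ⊆ L := by
    intro s z hz
    have h1 := hQη s.1.1 s.1.2 hz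
    apply interior_subset
    apply hthick
    rw [mem_thickening_iff]
    exact ⟨s.1.1, s.1.2, (mem_ball.1 h1).trans_le (min_le_left _ _)⟩
  have hQs : ∀ s, P.Small (Q s) := by
    intro s
    apply P.small_of_disp hdisp (hQL s)
    intro x hx z hz
    have h1 := mem_ball.1 (hQη s.1.1 s.1.2 hx)
    have h2 := mem_ball.1 (hQη s.1.1 s.1.2 hz)
    have h3 := dist_triangle_right x z s.1.1
    have h4 : η ≤ r / 2 := min_le_right _ _
    linarith
  have hfront : ∀ s, ∀ x ∈ frontier (Q s), ∃ i, x i = a s.1.1 s.1.2 i ∨ x i = b s.1.1 s.1.2 i := by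
    intro s x hx
    rw [(hQo s).frontier_eq] at hx
    have h1 : x ∈ Set.pi univ (fun i => Icc (a s.1.1 s.1.2 i) (b s.1.1 s.1.2 i)) := by
      refine closure_minimal ?_ (isClosed_set_pi fun i _ => isClosed_Icc) hx.1
      exact Set.pi_mono fun i _ => Ioo_subset_Icc_self
    have h2 : ∃ i, x i ∉ Ioo (a s.1.1 s.1.2 i) (b s.1.1 s.1.2 i) := by
      by_contra h
      push Not at h
      exact hx.2 fun i _ => h i
    obtain ⟨i, hi⟩ := h2
    refine ⟨i, ?_⟩
    have h3 := h1 i (mem_univ i)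
    by_contra h
    push Not at h
    exact hi ⟨lt_of_le_of_ne h3.1 (Ne.symm h.1), lt_of_le_of_ne h3.2 h.2⟩
  -- generic thresholds
  let K : Type := ι × Fin n × Bool × {ψ : Fin m → ι × Fin m // Function.Injective ψ}
  obtain ⟨thr, -, hthr, hthrZ⟩ := exists_thresholds (J := ι × Fin m) (m := m) (ι := K)
    (fun q => q.2.2.2.1) (fun q => q.2.2.2.2)
    (fun q => (fun x => fun k => ff (q.2.2.2.1 k).1 x) '' {x | x ∈ P.U ∧ F x = y ∧
      x q.2.1 = if q.2.2.1 then a q.1.1.1 q.1.1.2 q.2.1 else b q.1.1.1 q.1.1.2 q.2.1})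
    (fun q => by
      apply hN q.2.1
      split_ifs
      · exact (hab q.1.1.1 q.1.1.2 q.2.1).1
      · exact (hab q.1.1.1 q.1.1.2 q.2.1).2) hc
  -- the types
  let lam : Gp (m + 1) p →+ (Fin (m + 1) → ZMod p) :=
    { toFun := fun a i => PadicInt.toZMod (a i)
      map_zero' := by
        funext i
        simp
      map_add' := fun a b => by
        funext i
        simp }
  obtain ⟨N, l, hNo, hNU, hNg, hlN, hlg, hcov⟩ := Pool.Agent.Helper43.Rank.cover lam P.hU P.hgU P.hgadd P.hgj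
    (Q := Q) hQo (fun s a x _ hx hgx => by
      by_contra hne
      have h1 : Prim a := by
        by_contra hp
        apply hne
        funext i
        exact not_prim hp i
      exact hQs s a h1 x hx hgx)
    (f := ff) (fun s => hfc _) (fun s a x hx => hfg _ a x hx)
    (fun s x hx hx' => hjs s.1.1 s.1.2 x hx hx')
    (thr := thr) (fun s => (hthr s).1.le) (Φ := Φ) hΦU
    (fun x hx => by
      obtain ⟨z, hz, hzx⟩ := mem_iUnion₂.1 (ht hx)
      refine ⟨⟨z, hz⟩, fun a => ?_, 0, ?_⟩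
      · exact ((hthr _).2.trans_le (hct z hz)).trans hzx.1
      · rw [P.hg0 x hx.1]
        exact hzx.2)
    (fun x hx hfr => by
      obtain ⟨s, e, hse⟩ := hfr
      by_contra hcard
      push Not at hcard
      have hfin : Finite {s : ι × Fin m | ff s.1 x = thr s} := inferInstance
      obtain ⟨ψ⟩ : Nonempty (Fin m ↪ {s : ι × Fin m | ff s.1 x = thr s}) := by
        have := Fintype.ofFinite {s : ι × Fin m | ff s.1 x = thr s}
        apply Function.Embedding.nonempty_of_card_le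
        rw [Fintype.card_fin, ← Nat.card_eq_fintype_card, Nat.card_coe_set_eq]
        exact hcard
      obtain ⟨i, hi⟩ := hfront s _ hse
      have hinj : Function.Injective (fun k => (ψ k).1) :=
        Subtype.val_injective.comp ψ.injective
      have hmem : P.g e x ∈ P.U := P.hgU e x hx.1
      have hF' : F (P.g e x) = y := by rw [hFg e x hx.1]; exact hx.2
      have hval : ∀ k, ff (ψ k).1.1 (P.g e x) = thr (ψ k).1 := fun k => by
        have h1 : ff (ψ k).1.1 (P.g e x) = ff (ψ k).1.1 x := hfg _ e x hx.1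
        rw [h1]
        exact (ψ k).2
      rcases hi with hi | hi
      · apply hthrZ (s, i, true, ⟨fun k => (ψ k).1, hinj⟩)
        refine ⟨P.g e x, ⟨hmem, hF', by simpa using hi⟩, ?_⟩
        funext k
        exact hval k
      · apply hthrZ (s, i, false, ⟨fun k => (ψ k).1, hinj⟩)
        refine ⟨P.g e x, ⟨hmem, hF', by simpa using hi⟩, ?_⟩
        funext k
        exact hval k)
  -- the weights
  have hmuc : ∀ i, ContinuousOn (P.iwt (N i)) P.U := fun i => PD.iwt_continuousOn (N i)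
  obtain ⟨S₀, -, κ₁, hκ₁, hκΦ⟩ := exists_uniform hΦc P.hU hΦU (fun i => P.iwt (N i)) hmuc univ
    (fun x hx => by
      obtain ⟨i, hi⟩ := hcov x hx
      exact ⟨i, mem_univ i, (PD.iwt_pos (hNo i) (hNg i) hx.1).2 hi⟩)
  obtain ⟨θ, hθ0, hθ1, hθn⟩ := P.exists_theta (fun i => P.iwt (N i)) hmuc
    (fun i : Fin (m + 1) => ((i : ℕ) : ℝ)) (fun i j hij => by
      have hij' : ((i : ℕ) : ℝ) = ((j : ℕ) : ℝ) := hij
      exact Fin.ext (by exact_mod_cast hij')) (δ := κ₁ / (m + 1)) (by positivity)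
  have hO : IsOpen {x | x ∈ P.U ∧ ∃ i, κ₁ < P.iwt (N i) x} := by
    rw [isOpen_iff_mem_nhds]
    rintro x ⟨hx, i, hi⟩
    filter_upwards [P.hU.mem_nhds hx,
      ((hmuc i).continuousAt (P.hU.mem_nhds hx)).eventually_const_lt hi] with z h1 h2
    exact ⟨h1, i, h2⟩
  obtain ⟨ε, hε, hεO⟩ := P.exists_eps hF (y := y) hO (fun x hx heq => by
    have hxU := hy x hx heq
    obtain ⟨i, -, hi⟩ := hκΦ x ⟨hxU, heq⟩
    exact ⟨hxU, i, hi⟩)
  have hmax : ∀ i, ∀ x ∈ P.U, dist (F x) y ≤ 2 * ε →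
      (∀ j, P.iwt (N j) x + θ * ((j : ℕ) : ℝ) ≤ P.iwt (N i) x + θ * ((i : ℕ) : ℝ)) → x ∈ N i := by
    intro i x hx hd hm
    obtain ⟨-, i₀, hi₀⟩ := hεO x (subset_closure hx) hd
    have h1 := hm i₀
    have h2 : (0:ℝ) ≤ θ * ((i₀ : ℕ) : ℝ) := by positivity
    have h3 : ((i : ℕ) : ℝ) ≤ m + 1 := by
      have := i.2
      exact_mod_cast this.le
    have h4 : θ * ((i : ℕ) : ℝ) ≤ κ₁ := by
      calc θ * ((i : ℕ) : ℝ) ≤ κ₁ / (m + 1) * (m + 1) := by gcongr
        _ = κ₁ := by field_simp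
    exact (PD.iwt_pos (hNo i) (hNg i) hx).1 (by linarith)
  let D : LDat (volume : Measure (Fin n → ℝ)) (Gp (m + 1) p) p (Fin (m + 1)) :=
    { U := P.U
      g := P.g
      F := F
      y := y
      ε := ε
      χ := fun i => (Pi.evalAddMonoidHom (fun _ => ZMod p) i).comp lam
      v := fun i => Pi.single i 1
      mu := fun i x => P.iwt (N i) x + θ * ((i : ℕ) : ℝ)
      lab := l
      hU := P.hU
      hUb := P.hUb
      hg := P.hg
      hgU := P.hgU
      hg0 := P.hg0
      hgadd := P.hgadd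
      hpos := P.hpos
      hF := hF
      hFg := hFg
      hε := hε
      hK := fun x hx hd => (hεO x hx hd).1
      hχ := fun i j => by
        change PadicInt.toZMod ((Pi.single j (1 : ℤ_[p]) : Gp (m + 1) p) i) = _
        by_cases h : i = j
        · subst h
          simp
        · rw [Pi.single_eq_of_ne h, map_zero, if_neg h]
      hmu := fun i => (hmuc i).add continuousOn_const
      hmug := fun i a x hx => by rw [PD.iwt_g (N i) a hx]
      hnull := fun i j hij => hθn i j hij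
      hlab := fun i x hx hd hm => hlN i x (hmax i x hx hd hm)
      hlabg := fun i a x hx hd hm => hlg i a x (hmax i x hx hd hm) }
  exact D.deg_dvd hd

end Pool.Agent.Helper83.RK
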