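import Pool.Agent.Helper83.RK.DegSum

/-!
# Actions of powers of the `p`-adic integers in a chart
-/

set_option autoImplicit false
set_option linter.unusedSectionVars false
set_option linter.unusedVariables false

open Set MeasureTheory Metric Filter Topology
open scoped NNReal ENNReal

namespace Pool.Agent.Helper83.RK

open Pool.Agent.Helper3.HS

/-- The acting group. -/
abbrev Gp (m p : ℕ) [Fact p.Prime] : Type := Fin m → ℤ_[p]

/-- The element `a` is not divisible by `p`. -/
def Prim {m p : ℕ} [Fact p.Prime] (a : Gp m p) : Prop := ∃ i, ¬ (p : ℤ_[p]) ∣ a i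

/-- An action of a power of the `p`-adic integers on a bounded open subset of `ℝⁿ` by orientation
preserving maps; the elements which are not divisible by `p` have no fixed points. -/
structure PD (n m p : ℕ) [Fact p.Prime] where
  U : Set (Fin n → ℝ)
  g : Gp m p → (Fin n → ℝ) → (Fin n → ℝ)
  hU : IsOpen U
  hUb : Bornology.IsBounded U
  hg : ∀ a, Continuous (g a)
  hgj : ContinuousOn (fun q : Gp m p × (Fin n → ℝ) => g q.1 q.2) (univ ×ˢ U)
  hgU : ∀ a, ∀ x ∈ U, g a x ∈ U
  hg0 : ∀ x ∈ U, g 0 x = x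
  hgadd : ∀ a b, ∀ x ∈ U, g (a + b) x = g a (g b x)
  hpos : ∀ a, ∀ X ⊆ U, IsOpen X → ∀ x ∈ X,
    HasDeg (volume : Measure (Fin n → ℝ)) X (g a) (g a x) 1
  hfree : ∀ a, Prim a → ∀ x ∈ U, g a x ≠ x

/-- The averaged bump function. -/
noncomputable def PD.avg {n m p : ℕ} [Fact p.Prime] [MeasurableSpace ℤ_[p]] (P : PD n m p)
    (ν : Measure (Gp m p)) (q : (Fin n → ℝ) × ℝ) (x : Fin n → ℝ) : ℝ :=
  ∫ a, max 0 (q.2 - dist (P.g a x) q.1) ∂ν

end Pool.Agent.Helper83.RK
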