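import Pool.Agent.Helper83.RK.Strata

/-!
# The degree of an invariant map is divisible by `p`
-/

set_option autoImplicit false
set_option linter.unusedSectionVars false
set_option linter.unusedVariables false

open Set MeasureTheory Metric Filter Topology
open scoped NNReal ENNReal

namespace Pool.Agent.Helper83.RK

open Pool.Agent.Helper3.HS

variable {V : Type*} [NormedAddCommGroup V] [NormedSpace ℝ V] [FiniteDimensional ℝ V]
  [MeasurableSpace V] [BorelSpace V]

namespace LDat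

variable {μ : Measure V} [μ.IsAddHaarMeasure] {A : Type*} [AddCommGroup A] {p : ℕ} [NeZero p]
  {ι : Type*} [Fintype ι] [DecidableEq ι] (D : LDat μ A p ι)

theorem inv (a : A) {x : V} (hx : x ∈ D.U) : D.g (-a) (D.g a x) = x := by
  rw [← D.hgadd _ _ x hx, neg_add_cancel, D.hg0 x hx]

theorem inv' (a : A) {x : V} (hx : x ∈ D.U) : D.g a (D.g (-a) x) = x := by
  rw [← D.hgadd _ _ x hx, add_neg_cancel, D.hg0 x hx]

theorem image_eq (a : A) {O : Set V} (hO : O ⊆ D.U) :
    D.g a '' O = D.U ∩ (D.g (-a)) ⁻¹' O := by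
  ext x
  constructor
  · rintro ⟨z, hz, rfl⟩
    exact ⟨D.hgU a z (hO hz), by rw [mem_preimage, D.inv a (hO hz)]; exact hz⟩
  · rintro ⟨hx, hx'⟩
    exact ⟨_, hx', D.inv' a hx⟩

theorem image_open (a : A) {O : Set V} (hO : O ⊆ D.U) (hOo : IsOpen O) :
    IsOpen (D.g a '' O) := by
  rw [D.image_eq a hO]
  exact D.hU.inter (hOo.preimage (D.hg _))

theorem image_sub (a : A) {O : Set V} (hO : O ⊆ D.U) : D.g a '' O ⊆ D.U := by
  rintro _ ⟨z, hz, rfl⟩
  exact D.hgU a z (hO hz)

theorem transport (a : A) {X : Set V} (hX : IsOpen X) (hXU : X ⊆ D.U) {B : V → V}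
    (hB : Continuous B) {y : V} {κ : ℝ} (hdeg : HasDeg μ (D.g a '' X) B y κ)
    (hne : ∀ x ∈ frontier X, B (D.g a x) ≠ y) : HasDeg μ X (fun x => B (D.g a x)) y κ := by
  have h1 := HasDeg.comp μ hX (D.hUb.subset hXU) (D.image_open a hXU hX)
    (D.hUb.subset (D.image_sub a hXU)) (D.hg a) hB (y := y) (s := 1) (k := κ)
    (fun x hx heq => by
      have hxX : x ∈ X := by
        by_contra hn
        exact hne x (by rw [hX.frontier_eq]; exact ⟨hx, hn⟩) heq
      exact ⟨x, hxX, rfl⟩) hne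
    (fun z hz _ => by
      obtain ⟨x, hx, rfl⟩ := hz
      exact D.hpos a X hXU hX x hx) hdeg
  rwa [one_mul] at h1

/-- The cells. -/
def M (i : ι) (c : ZMod p) : Set V :=
  {x | x ∈ D.U ∧ dist (D.F x) D.y < 2 * D.ε ∧ (∀ j, j ≠ i → D.mu j x < D.mu i x) ∧ D.lab i x = c}

variable {D}

theorem M_K {i : ι} {c : ZMod p} {x : V} (hx : x ∈ D.M i c) : x ∈ D.K := ⟨hx.1, hx.2.1.le⟩

theorem M_I {i : ι} {c : ZMod p} {x : V} (hx : x ∈ D.M i c) : i ∈ D.I x := by
  rw [mem_I]
  intro j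
  by_cases h : j = i
  · rw [h]
  · exact (hx.2.2.1 j h).le

variable (D)

theorem isOpen_M (i : ι) (c : ZMod p) : IsOpen (D.M i c) := by
  rw [isOpen_iff_mem_nhds]
  intro x hx
  have h1 : ∀ᶠ x' in 𝓝 x, dist (D.F x') D.y < 2 * D.ε :=
    (D.hF.dist continuous_const).continuousAt.eventually_lt_const hx.2.1
  have h2 : ∀ᶠ x' in 𝓝 x, ∀ j ∈ (Finset.univ : Finset ι), j ≠ i → D.mu j x' < D.mu i x' := by
    rw [Filter.eventually_all_finset]
    intro j _
    by_cases hj : j = i
    · exact Eventually.of_forall fun x' h => absurd hj h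
    · filter_upwards [((D.hmu j).continuousAt (D.hU.mem_nhds hx.1)).eventually_lt
        ((D.hmu i).continuousAt (D.hU.mem_nhds hx.1)) (hx.2.2.1 j hj)] with x' hx' _
      exact hx'
  filter_upwards [D.hU.mem_nhds hx.1, h1, h2, D.eventually_lab (M_K hx)] with x' h3 h4 h5 h6
  exact ⟨h3, h4, fun j hj => h5 j (Finset.mem_univ j) hj, (h6 i (M_I hx)).trans hx.2.2.2⟩

theorem M_sub (i : ι) (c : ZMod p) : D.M i c ⊆ D.U := fun _ hx => hx.1

theorem M_disj {i j : ι} {c e : ZMod p} (h : (i, c) ≠ (j, e)) :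
    Disjoint (D.M i c) (D.M j e) := by
  rw [Set.disjoint_left]
  intro x hx hx'
  by_cases hij : i = j
  · subst hij
    apply h
    rw [← hx.2.2.2, ← hx'.2.2.2]
  · exact absurd (hx.2.2.1 j (Ne.symm hij)) (not_lt.2 (hx'.2.2.1 i hij).le)

/-- The frontier of a cell. -/
theorem frontier_M {i : ι} {c : ZMod p} {x : V} (hx : x ∈ frontier (D.M i c)) :
    x ∈ D.K ∧ (dist (D.F x) D.y = 2 * D.ε ∨ (x ∈ D.C 2 ∧ i ∈ D.I x ∧ D.lab i x = c)) := by
  have hcl := frontier_subset_closure hx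
  have h1 : D.M i c ⊆ D.K := fun _ h => M_K h
  have hxK : x ∈ D.K := closure_minimal h1 D.isCompact_K.isClosed hcl
  refine ⟨hxK, ?_⟩
  by_cases hd : dist (D.F x) D.y = 2 * D.ε
  · exact Or.inl hd
  · right
    have hd' : dist (D.F x) D.y < 2 * D.ε := lt_of_le_of_ne hxK.2 hd
    obtain ⟨z, hzM, hzI, hzl⟩ : ∃ z, z ∈ D.M i c ∧ D.I z ⊆ D.I x ∧
        ∀ j ∈ D.I x, D.lab j z = D.lab j x := by
      have h2 := (mem_closure_iff_frequently.1 hcl).and_eventually
        ((D.eventually_I hxK.1).and (D.eventually_lab hxK))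
      obtain ⟨z, hz⟩ := h2.exists
      exact ⟨z, hz.1, hz.2.1, hz.2.2⟩
    have hi : i ∈ D.I x := hzI (M_I hzM)
    have hl : D.lab i x = c := by rw [← hzl i hi]; exact hzM.2.2.2
    refine ⟨⟨hxK, ?_⟩, hi, hl⟩
    by_contra hcard
    have h3 : D.I x = {i} := by
      have h4 : (D.I x).card ≤ 1 := by omega
      exact Finset.eq_singleton_iff_unique_mem.2
        ⟨hi, fun j hj => Finset.card_le_one.1 h4 j hj i hi⟩
    have h5 : x ∈ D.M i c := by
      refine ⟨hxK.1, hd', fun j hj => ?_, hl⟩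
      have h6 : j ∉ D.I x := by rw [h3]; simpa using hj
      rw [mem_I] at h6
      push Not at h6
      obtain ⟨k, hk⟩ := h6
      exact lt_of_lt_of_le hk (D.mem_I.1 hi k)
    rw [(D.isOpen_M i c).frontier_eq] at hx
    exact hx.2 h5

theorem image_M (i : ι) (n : ℕ) (hn : n < p) :
    D.g (n • D.v i) '' D.M i 0 = D.M i (n : ZMod p) := by
  have hχn : D.χ i (n • D.v i) = n := by
    rw [map_nsmul, D.hχ, if_pos rfl, nsmul_eq_mul, mul_one]
  have hstep : ∀ (a : A) (c : ZMod p) (x : V), x ∈ D.M i c → D.g a x ∈ D.M i (c + D.χ i a) := by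
    intro a c x hx
    refine ⟨D.hgU a x hx.1, by rw [D.hFg a x hx.1]; exact hx.2.1, fun j hj => ?_, ?_⟩
    · rw [D.hmug j a x hx.1, D.hmug i a x hx.1]
      exact hx.2.2.1 j hj
    · rw [D.lab_g a (M_K hx) (M_I hx), hx.2.2.2]
  ext x
  constructor
  · rintro ⟨z, hz, rfl⟩
    have := hstep (n • D.v i) 0 z hz
    rwa [hχn, zero_add] at this
  · intro hx
    refine ⟨D.g (-(n • D.v i)) x, ?_, D.inv' _ hx.1⟩
    have := hstep (-(n • D.v i)) _ x hx
    rwa [map_neg, hχn, add_neg_cancel] at this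

/-- **The degree is divisible by `p`.** -/
theorem deg_dvd [Nonempty ι] {κ : ℝ} (hκ : HasDeg μ D.U D.F D.y κ) :
    ∃ z : ℤ, κ = p * z := by
  classical
  have : ProperSpace V := FiniteDimensional.proper ℝ V
  obtain ⟨B, hB, hBF, hBC⟩ := D.good_two D.ε D.hε
  -- the degree of the perturbed map
  have hseg : ∀ x, 2 * D.ε ≤ dist (D.F x) D.y → ∀ z w : V, dist z (D.F x) ≤ D.ε →
      dist w (D.F x) ≤ D.ε → ∀ t ∈ Icc (0 : ℝ) 1, (1 - t) • (z - D.y) + t • (w - D.y) ≠ 0 := by
    intro x hx z w hz hw t ht heq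
    have e : (1 - t) • (z - D.y) + t • (w - D.y) = ((1 - t) • z + t • w) - D.y := by module
    rw [e] at heq
    have h2 : (1 - t) • z + t • w ∈ closedBall (D.F x) D.ε :=
      convex_closedBall _ _ (mem_closedBall.mpr hz) (mem_closedBall.mpr hw)
        (by linarith [ht.2]) ht.1 (by ring)
    rw [sub_eq_zero.1 heq, mem_closedBall, dist_comm] at h2
    have := D.hε
    linarith
  have hfrU : ∀ x ∈ frontier D.U, 2 * D.ε < dist (D.F x) D.y := by
    intro x hx
    by_contra hn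
    push Not at hn
    have h2 := D.hK x (frontier_subset_closure hx) hn
    rw [D.hU.frontier_eq] at hx
    exact hx.2 h2
  have hκB : HasDeg μ D.U B D.y κ := by
    apply HasDeg.homotopy μ D.hU D.hUb D.hF.continuousOn hB.continuousOn hκ
    intro x hx
    exact hseg x (hfrU x hx).le _ _ (by rw [dist_self]; exact D.hε.le) (hBF x)
  -- the degrees on the cells
  have hne : ∀ (i : ι) (c : ZMod p), ∀ x ∈ frontier (D.M i c), B x ≠ D.y := by
    intro i c x hx heq
    rcases (D.frontier_M hx).2 with h | h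
    · have h2 := hBF x
      rw [heq, dist_comm, h] at h2
      have := D.hε
      linarith
    · exact (hBC x h.1).1 heq
  have hbdd : ∀ (i : ι) (c : ZMod p), Bornology.IsBounded (D.M i c) := fun i c =>
    D.hUb.subset (D.M_sub i c)
  have hex : ∀ q : ι × ZMod p, ∃ k : ℝ, HasDeg μ (D.M q.1 q.2) B D.y k := fun q =>
    HasDeg.exists μ (D.isOpen_M _ _) (hbdd _ _) hB.continuousOn (hne _ _)
  choose k hk using hex
  have hsum : HasDeg μ D.U B D.y (∑ q : ι × ZMod p, k q) := by
    apply HasDeg.sum μ Finset.univ D.hU D.hUb (W := fun q : ι × ZMod p => D.M q.1 q.2)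
      (fun q _ => D.isOpen_M _ _) (fun q _ => D.M_sub _ _) _ hB.continuousOn _ (fun q _ => hk q)
    · rintro ⟨i, c⟩ _ ⟨j, e⟩ _ hqe
      exact D.M_disj hqe
    · intro x hx heq
      have h2 : dist (D.F x) D.y ≤ D.ε := by
        rw [← heq, dist_comm]
        exact hBF x
      have h3 := D.hε
      have hxK : x ∈ D.K := ⟨D.hK x hx (by linarith), by linarith⟩
      have h4 : ¬ x ∈ D.C 2 := fun h => (hBC x h).1 heq
      have h5 : (D.I x).Nonempty := by
        obtain ⟨i, hi⟩ := Finite.exists_max (fun i => D.mu i x)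
        exact ⟨i, D.mem_I.2 hi⟩
      obtain ⟨i, hi⟩ := h5
      have h6 : (D.I x).card ≤ 1 := by
        by_contra h
        exact h4 ⟨hxK, by omega⟩
      refine ⟨(i, D.lab i x), Finset.mem_univ _, hxK.1, by linarith, fun j hj => ?_, rfl⟩
      by_contra hn
      push Not at hn
      have h7 : j ∈ D.I x := D.mem_I.2 fun l => (D.mem_I.1 hi l).trans hn
      exact hj (Finset.card_le_one.1 h6 j h7 i hi)
  have h1 : κ = ∑ q : ι × ZMod p, k q := HasDeg.unique μ D.hU D.hUb hB.continuousOn hκB hsum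
  -- the degrees do not depend on the label
  have h2 : ∀ i c, k (i, c) = k (i, 0) := by
    intro i c
    have hc : ((c.val : ℕ) : ZMod p) = c := by rw [ZMod.natCast_val, ZMod.cast_id]
    have hcp : c.val < p := ZMod.val_lt c
    have h3 : HasDeg μ (D.g (c.val • D.v i) '' D.M i 0) B D.y (k (i, c)) := by
      rw [D.image_M i c.val hcp, hc]
      exact hk (i, c)
    have hfr : ∀ x ∈ frontier (D.M i 0), (2 * D.ε ≤ dist (D.F x) D.y) ∨
        (B (D.g (c.val • D.v i) x) = B x ∧ B x ≠ D.y) := by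
      intro x hx
      obtain ⟨hxK, h4 | ⟨hC, hi, hl⟩⟩ := D.frontier_M hx
      · exact Or.inl h4.ge
      · right
        have h5 : D.g (c.val • D.v i) x ∈ D.C 2 := ⟨D.gK _ hxK, by rw [D.I_g _ hxK.1]; exact hC.2⟩
        refine ⟨?_, (hBC x hC).1⟩
        rw [← (hBC _ h5).2, D.r_shift hxK hi hl hcp, (hBC x hC).2]
    have hBg : ∀ x ∈ frontier (D.M i 0), dist (B (D.g (c.val • D.v i) x)) (D.F x) ≤ D.ε := by
      intro x hx
      rw [← D.hFg (c.val • D.v i) x (D.frontier_M hx).1.1]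
      exact hBF _
    have h4 : HasDeg μ (D.M i 0) (fun x => B (D.g (c.val • D.v i) x)) D.y (k (i, c)) := by
      apply D.transport _ (D.isOpen_M i 0) (D.M_sub i 0) hB h3
      intro x hx heq
      rcases hfr x hx with h5 | ⟨h5, h6⟩
      · have h6 := hBg x hx
        rw [heq, dist_comm] at h6
        have := D.hε
        linarith
      · exact h6 (h5.symm.trans heq)
    have h5 : HasDeg μ (D.M i 0) B D.y (k (i, c)) := by
      apply HasDeg.homotopy μ (D.isOpen_M i 0) (hbdd i 0)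
        (hB.comp (D.hg _)).continuousOn hB.continuousOn h4
      intro x hx t ht heq
      rcases hfr x hx with h6 | ⟨h6, h7⟩
      · exact hseg x h6 _ _ (hBg x hx) (hBF x) t ht heq
      · rw [Function.comp_apply, h6, ← add_smul, sub_add_cancel, one_smul, sub_eq_zero] at heq
        exact h7 heq
    exact HasDeg.unique μ (D.isOpen_M i 0) (hbdd i 0) hB.continuousOn h5 (hk (i, 0))
  -- integrality
  have h3 : ∀ i, ∃ z : ℤ, k (i, 0) = z := fun i =>
    HasDeg.int μ (D.isOpen_M i 0) (hbdd i 0) hB.continuousOn (hk (i, 0))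
  choose z hz using h3
  refine ⟨∑ i, z i, ?_⟩
  rw [h1, Fintype.sum_prod_type]
  push_cast
  rw [Finset.mul_sum]
  apply Finset.sum_congr rfl
  intro i _
  rw [Finset.sum_congr rfl fun c _ => h2 i c, Finset.sum_const, Finset.card_univ, ZMod.card,
    nsmul_eq_mul, hz]

end LDat

end Pool.Agent.Helper83.RK
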