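import Pool.Agent.Helper83.RK.Defs

/-!
# Labels from small sets, compactness lemmas
-/

set_option autoImplicit false
set_option linter.unusedSectionVars false
set_option linter.unusedVariables false

open Set MeasureTheory Metric Filter Topology
open scoped NNReal ENNReal

namespace Pool.Agent.Helper83.RK

open Pool.Agent.Helper3.HS

/-- Uniform positivity on compact sets. -/
theorem exists_uniform {V ι : Type*} [TopologicalSpace V] {Φ U : Set V} (hΦ : IsCompact Φ)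
    (hU : IsOpen U) (hΦU : Φ ⊆ U) (mu : ι → V → ℝ) (hc : ∀ i, ContinuousOn (mu i) U) (I₀ : Set ι)
    (h : ∀ x ∈ Φ, ∃ i ∈ I₀, 0 < mu i x) :
    ∃ S : Finset ι, (∀ i ∈ S, i ∈ I₀) ∧ ∃ δ > 0, ∀ x ∈ Φ, ∃ i ∈ S, δ < mu i x := by
  classical
  choose i hi hi' using h
  obtain ⟨t, ht⟩ := hΦ.elim_nhds_subcover' (fun x hx => {z | mu (i x hx) x / 2 < mu (i x hx) z})
    (fun x hx => ((hc (i x hx)).continuousAt (hU.mem_nhds (hΦU hx))).eventually_const_lt
      (by linarith [hi' x hx]))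
  obtain ⟨δ, hδ, hδt⟩ := exists_pos_le_finset t (fun x : Φ => mu (i x.1 x.2) x.1 / 2)
    (fun x _ => by linarith [hi' x.1 x.2])
  refine ⟨t.image fun x : Φ => i x.1 x.2, ?_, δ, hδ, fun x hx => ?_⟩
  · intro j hj
    obtain ⟨x, -, rfl⟩ := Finset.mem_image.1 hj
    exact hi _ _
  · obtain ⟨z, hz, hzx⟩ := mem_iUnion₂.1 (ht hx)
    exact ⟨_, Finset.mem_image_of_mem _ hz, (hδt z hz).trans_lt hzx⟩

section prim

variable {m p : ℕ} [Fact p.Prime]

theorem not_prim {a : Gp m p} (h : ¬ Prim a) (i : Fin m) : PadicInt.toZMod (a i) = 0 := by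
  unfold Prim at h
  push Not at h
  have h1 := h i
  rw [← RingHom.mem_ker, PadicInt.ker_toZMod, PadicInt.maximalIdeal_eq_span_p,
    Ideal.mem_span_singleton]
  exact h1

theorem isClosed_prim : IsClosed {a : Gp m p | Prim a} := by
  have h1 : {a : Gp m p | Prim a} = ⋃ i, {a : Gp m p | ¬ (p : ℤ_[p]) ∣ a i} := by
    ext a
    simp [Prim]
  rw [h1]
  apply isClosed_iUnion_of_finite
  intro i
  have h2 : {a : Gp m p | ¬ (p : ℤ_[p]) ∣ a i} = (fun a : Gp m p => a i) ⁻¹' (ball 0 1)ᶜ := by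
    ext a
    rw [mem_setOf_eq, mem_preimage, mem_compl_iff, mem_ball_zero_iff, ← PadicInt.norm_lt_one_iff_dvd]
  rw [h2]
  exact isOpen_ball.isClosed_compl.preimage (continuous_apply i)

end prim

namespace PD

variable {n m p : ℕ} [Fact p.Prime] (P : PD n m p)

/-- Sets which are moved off themselves by the primitive elements. -/
def Small (Q : Set (Fin n → ℝ)) : Prop := ∀ a, Prim a → ∀ x ∈ Q, P.g a x ∉ Q

open Classical in
/-- The label of a point with respect to a small set. -/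
noncomputable def lam (Q : Set (Fin n → ℝ)) (x : Fin n → ℝ) (i : Fin m) : ZMod p :=
  if h : ∃ a, P.g (-a) x ∈ Q then PadicInt.toZMod (h.choose i) else 0

variable {P}

theorem lam_eq {Q : Set (Fin n → ℝ)} (hQ : P.Small Q) {x : Fin n → ℝ} (hx : x ∈ P.U) {a : Gp m p}
    (ha : P.g (-a) x ∈ Q) (i : Fin m) : P.lam Q x i = PadicInt.toZMod (a i) := by
  have h : ∃ a, P.g (-a) x ∈ Q := ⟨a, ha⟩
  unfold lam
  rw [dif_pos h]
  by_contra hne
  have h1 : Prim (h.choose - a) := by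
    by_contra hp
    have h2 := not_prim hp i
    rw [Pi.sub_apply, map_sub, sub_eq_zero] at h2
    exact hne h2
  have h3 : P.g (h.choose - a) (P.g (-h.choose) x) = P.g (-a) x := by
    rw [← P.hgadd _ _ x hx]
    congr 1
    abel
  exact hQ _ h1 _ h.choose_spec (by rw [h3]; exact ha)

theorem lam_g {Q : Set (Fin n → ℝ)} (hQ : P.Small Q) {x : Fin n → ℝ} (hx : x ∈ P.U) {a : Gp m p}
    (ha : P.g (-a) x ∈ Q) (b : Gp m p) (i : Fin m) :
    P.lam Q (P.g b x) i = P.lam Q x i + PadicInt.toZMod (b i) := by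
  have h1 : P.g (-(a + b)) (P.g b x) = P.g (-a) x := by
    rw [← P.hgadd _ _ x hx]
    congr 1
    abel
  rw [lam_eq hQ (P.hgU b x hx) (a := a + b) (by rw [h1]; exact ha) i, lam_eq hQ hx ha i,
    Pi.add_apply, map_add]

theorem lam_locally {Q : Set (Fin n → ℝ)} (hQ : P.Small Q) (hQo : IsOpen Q) {x : Fin n → ℝ}
    (hx : x ∈ P.U) {a : Gp m p} (ha : P.g (-a) x ∈ Q) :
    ∀ᶠ x' in 𝓝 x, ∀ i, P.lam Q x' i = P.lam Q x i := by
  have h1 : ∀ᶠ x' in 𝓝 x, P.g (-a) x' ∈ Q := (P.hg (-a)).continuousAt (hQo.mem_nhds ha)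
  filter_upwards [h1, P.hU.mem_nhds hx] with x' h2 h3 i
  rw [lam_eq hQ h3 h2 i, lam_eq hQ hx ha i]

variable (P)

/-- The displacement of the primitive elements is bounded below on compact sets. -/
theorem exists_disp {L : Set (Fin n → ℝ)} (hL : IsCompact L) (hLU : L ⊆ P.U) :
    ∃ r > 0, ∀ a, Prim a → ∀ x ∈ L, r ≤ dist (P.g a x) x := by
  have hK : IsCompact ({a : Gp m p | Prim a} ×ˢ L) := isClosed_prim.isCompact.prod hL
  have hc : ContinuousOn (fun q : Gp m p × (Fin n → ℝ) => P.g q.1 q.2 - q.2)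
      ({a : Gp m p | Prim a} ×ˢ L) := by
    apply ContinuousOn.sub _ continuousOn_snd
    exact P.hgj.mono (prod_mono (subset_univ _) hLU)
  obtain ⟨r, hr, h⟩ := exists_gap hK hc (y := 0) (fun q hq => by
    rw [ne_eq, sub_eq_zero]
    exact P.hfree q.1 hq.1 q.2 (hLU hq.2))
  refine ⟨4 * r, by positivity, fun a ha x hx => ?_⟩
  have := h (a, x) ⟨ha, hx⟩
  rwa [dist_zero_right, ← dist_eq_norm] at this

theorem small_of_disp {L : Set (Fin n → ℝ)} {r : ℝ}
    (h : ∀ a, Prim a → ∀ x ∈ L, r ≤ dist (P.g a x) x) {Q : Set (Fin n → ℝ)} (hQL : Q ⊆ L)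
    (hQ : ∀ x ∈ Q, ∀ z ∈ Q, dist x z < r) : P.Small Q := by
  intro a ha x hx hx'
  exact absurd (hQ _ hx' x hx) (not_lt.2 (h a ha x (hQL hx)))

/-- The neighbourhoods of the fibre. -/
theorem exists_eps {F : (Fin n → ℝ) → (Fin n → ℝ)} (hF : Continuous F) {y : Fin n → ℝ}
    {O : Set (Fin n → ℝ)} (hO : IsOpen O) (h : ∀ x ∈ closure P.U, F x = y → x ∈ O) :
    ∃ ε > 0, ∀ x ∈ closure P.U, dist (F x) y ≤ 2 * ε → x ∈ O := by
  have hK : IsCompact (closure P.U \ O) := P.hUb.isCompact_closure.diff hO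
  obtain ⟨r, hr, hg⟩ := exists_gap hK hF.continuousOn (y := y) (fun x hx heq =>
    hx.2 (h x hx.1 heq))
  refine ⟨r, hr, fun x hx hd => ?_⟩
  by_contra hn
  have := hg x ⟨hx, hn⟩
  linarith

end PD

end Pool.Agent.Helper83.RK
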