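import Pool.Agent.Helper3.HS2.Wall

/-!
# Relative perturbations and bounded extensions
-/

set_option autoImplicit false
set_option linter.unusedSectionVars false
set_option linter.unusedVariables false

open Set MeasureTheory Metric Filter Topology
open scoped NNReal ENNReal

namespace Pool.Agent.Helper83.RK

open Pool.Agent.Helper3.HS

variable {V : Type*} [NormedAddCommGroup V] [NormedSpace ℝ V] [FiniteDimensional ℝ V]
  [MeasurableSpace V] [BorelSpace V] (μ : Measure V) [μ.IsAddHaarMeasure]

/-- The image of a null set under a map of class `C¹` is null. -/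
theorem image_null {G : V → V} (hG : ContDiff ℝ 1 G) {K : Set V} (hK : μ K = 0) :
    μ (G '' K) = 0 :=
  addHaar_image_eq_zero_of_differentiableOn_of_addHaar_eq_zero μ
    (hG.differentiable one_ne_zero).differentiableOn hK

/-- Null sets can be avoided by small translations. -/
theorem exists_translate {S : Set V} (hS : μ S = 0) (y : V) {η : ℝ} (hη : 0 < η) :
    ∃ v : V, ‖v‖ < η ∧ y - v ∉ S := by
  have h1 : ∃ z ∈ ball y η, z ∉ S := by
    by_contra h
    push Not at h
    have h2 : μ (ball y η) ≤ μ S := measure_mono h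
    rw [hS] at h2
    exact (measure_ball_pos μ y hη).ne' (le_antisymm h2 bot_le)
  obtain ⟨z, hz, hzS⟩ := h1
  refine ⟨y - z, ?_, ?_⟩
  · rw [← dist_eq_norm, dist_comm]
    exact mem_ball.1 hz
  · rwa [sub_sub_cancel]

/-- The relative perturbation lemma. -/
theorem exists_perturb {K K₀ : Set V} (hK : μ K = 0) (hK₀ : IsCompact K₀) {A : V → V}
    (hA : Continuous A) {y : V} (hne : ∀ x ∈ K₀, A x ≠ y) {ε : ℝ} (hε : 0 < ε) :
    ∃ A' : V → V, Continuous A' ∧ (∀ x, dist (A' x) (A x) ≤ ε) ∧ (∀ x ∈ K₀, A' x = A x) ∧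
      ∀ x ∈ K, A' x ≠ y := by
  obtain ⟨κ, hκ, hgap⟩ := exists_gap hK₀ hA.continuousOn hne
  -- `4 κ ≤ dist (A x) y` on `K₀`
  have hη : 0 < min (ε / 2) (κ / 2) := by positivity
  obtain ⟨G, hG, hGA⟩ := exists_approx isClosed_univ hA.continuousOn hη
  obtain ⟨v, hv, hvS⟩ := exists_translate μ (image_null μ hG hK) y hη
  let A₁ : V → V := fun x => G x + v
  have h1 : ∀ x, dist (A₁ x) (A x) ≤ min ε κ := by
    intro x
    have h2 := hGA x (mem_univ x)
    have h3 : dist (A₁ x) (A x) ≤ dist (G x) (A x) + ‖v‖ := by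
      rw [dist_eq_norm, dist_eq_norm]
      have : A₁ x - A x = (G x - A x) + v := by
        simp only [A₁]; abel
      rw [this]
      exact norm_add_le _ _
    have h4 : min (ε / 2) (κ / 2) + min (ε / 2) (κ / 2) ≤ min ε κ := by
      apply le_min
      · linarith [min_le_left (ε / 2) (κ / 2)]
      · linarith [min_le_right (ε / 2) (κ / 2)]
    linarith
  have h2 : ∀ x ∈ K, A₁ x ≠ y := by
    intro x hx heq
    apply hvS
    refine ⟨x, hx, ?_⟩
    rw [← heq]
    simp [A₁]
  let χ : V → ℝ := fun x => max 0 (min 1 (3 - dist (A x) y / κ))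
  have hχc : Continuous χ := by
    have := hA
    fun_prop
  have hχ0 : ∀ x, 0 ≤ χ x := fun x => le_max_left _ _
  have hχ1 : ∀ x, χ x ≤ 1 := fun x => max_le zero_le_one (min_le_left _ _)
  refine ⟨fun x => A x + χ x • (A₁ x - A x), ?_, ?_, ?_, ?_⟩
  · have hA₁ : Continuous A₁ := hG.continuous.add continuous_const
    exact hA.add (hχc.smul (hA₁.sub hA))
  · intro x
    rw [dist_eq_norm, add_sub_cancel_left, norm_smul, Real.norm_eq_abs, abs_of_nonneg (hχ0 x)]
    have h3 := h1 x
    rw [dist_eq_norm] at h3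
    calc χ x * ‖A₁ x - A x‖ ≤ 1 * ‖A₁ x - A x‖ := by
          apply mul_le_mul_of_nonneg_right (hχ1 x) (norm_nonneg _)
      _ ≤ ε := by rw [one_mul]; exact h3.trans (min_le_left _ _)
  · intro x hx
    have h3 := hgap x hx
    have h4 : χ x = 0 := by
      have h5 : 4 ≤ dist (A x) y / κ := by
        rw [le_div_iff₀ hκ]
        exact h3
      simp only [χ]
      rw [max_eq_left]
      exact (min_le_right _ _).trans (by linarith)
    simp [h4]
  · intro x hx heq
    by_cases h3 : dist (A x) y ≤ 2 * κ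
    · have h4 : χ x = 1 := by
        have h5 : dist (A x) y / κ ≤ 2 := by
          rw [div_le_iff₀ hκ]
          exact h3
        simp only [χ]
        rw [min_eq_left (by linarith), max_eq_right zero_le_one]
      simp only [h4, one_smul, add_sub_cancel] at heq
      exact h2 x hx heq
    · push Not at h3
      have h4 : dist (A x) y ≤ κ := by
        rw [← heq, dist_comm, dist_eq_norm, add_sub_cancel_left, norm_smul, Real.norm_eq_abs,
          abs_of_nonneg (hχ0 x)]
        have h5 := h1 x
        rw [dist_eq_norm] at h5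
        calc χ x * ‖A₁ x - A x‖ ≤ 1 * ‖A₁ x - A x‖ := by
              apply mul_le_mul_of_nonneg_right (hχ1 x) (norm_nonneg _)
          _ ≤ κ := by rw [one_mul]; exact h5.trans (min_le_right _ _)
      linarith

omit [MeasurableSpace V] [BorelSpace V] in
/-- Extension of a function which is close to `F` on a closed set. -/
theorem exists_extend {K : Set V} (hK : IsClosed K) {F h : V → V} (hF : Continuous F)
    (hh : ContinuousOn h K) {ε : ℝ} (hε : 0 < ε) (hd : ∀ x ∈ K, dist (h x) (F x) ≤ ε) :
    ∃ A : V → V, Continuous A ∧ (∀ x, dist (A x) (F x) ≤ ε) ∧ ∀ x ∈ K, A x = h x := by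
  obtain ⟨g, hg⟩ := ContinuousMap.exists_restrict_eq hK
    ⟨fun x : K => h x - F x,
      continuousOn_iff_continuous_restrict.mp (hh.sub hF.continuousOn)⟩
  have hg' : ∀ x ∈ K, g x = h x - F x := fun x hx => congrArg (fun f => f ⟨x, hx⟩) hg
  let q : V → V := fun x => (max 1 (‖g x‖ / ε))⁻¹ • g x
  have hpos : ∀ x, 0 < max 1 (‖g x‖ / ε) := fun x => lt_of_lt_of_le one_pos (le_max_left _ _)
  have hqc : Continuous q := by
    have h1 : Continuous (fun x => max 1 (‖g x‖ / ε)) := by
      have := g.continuous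
      fun_prop
    exact (h1.inv₀ fun x => (hpos x).ne').smul g.continuous
  have hq : ∀ x, ‖q x‖ ≤ ε := by
    intro x
    simp only [q]
    rw [norm_smul, norm_inv, Real.norm_eq_abs, abs_of_pos (hpos x), inv_mul_le_iff₀ (hpos x)]
    have h2 := le_max_right 1 (‖g x‖ / ε)
    rw [div_le_iff₀ hε] at h2
    exact h2
  refine ⟨fun x => F x + q x, hF.add hqc, fun x => ?_, fun x hx => ?_⟩
  · rw [dist_eq_norm, add_sub_cancel_left]
    exact hq x
  · have h1 : ‖g x‖ / ε ≤ 1 := by
      rw [div_le_one hε, hg' x hx, ← dist_eq_norm]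
      exact hd x hx
    simp only [q]
    rw [max_eq_left h1, inv_one, one_smul, hg' x hx]
    abel

end Pool.Agent.Helper83.RK
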